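import Pool.Agent.Y36.FD.BranchFDC
import Pool.Agent.Y36.FD.ThSq
import Pool.Agent.Results.MP_bba340_al.GrigorchukNoWeakFDC

set_option autoImplicit false

/-!
# Finitely generated branch groups and Thompson's group `F` do not have weak finite decomposition
complexity

The general theorem: a group with a proper left-invariant metric which contains subgroups `H w`,
indexed by the finite binary words, which are infinite and finitely generated and such that `H (w0)`
and `H (w1)` are contained in `H w`, commute and intersect trivially, does not have weak FDC.  The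
numbers of generators of the groups `H w` need not be bounded.  In a finitely generated branch group
the rigid stabilizers of the vertices of a binary subtree are such subgroups.
-/

namespace Pool.Agent.Results.MP_bba340_al.BranchAndThompson

open Pool.Agent.TH87.FDC H812R5 Pool.Agent.Y36.FD

/-- The metric space `(Γ, m)` has neither FDC nor weak FDC. -/
def NoFDC (Γ : Type) (m : MetricSpace Γ) : Prop :=
  ¬ HasFDC (MetricFamily.single Γ m) ∧ ¬ HasWeakFDC (MetricFamily.single Γ m)

/-- No group which contains a copy of `Δ` has FDC or weak FDC, for any proper left-invariant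
metric. -/
def Obstructs (Δ : Type) [Group Δ] : Prop :=
  ∀ (Γ : Type) [Group Γ] (m : MetricSpace Γ), ProperLeftInvariant m →
    ∀ ι : Δ →* Γ, Function.Injective ι → NoFDC Γ m

theorem noFDC {Γ : Type} {m : MetricSpace Γ} (h : ¬ HasWeakFDC (MetricFamily.single Γ m)) :
    NoFDC Γ m := ⟨fun h' => h h'.weak, h⟩

theorem obstructs_binSys {Δ : Type} [Group Δ] {H : List Bool → Subgroup Δ} (hH : BinSys H)
    (hfg : ∀ w, (H w).FG) (hinf : ∀ w, (H w : Set Δ).Infinite) : Obstructs Δ := by
  classical
  intro Γ _ m hm ι hι
  refine noFDC (not_weakFDC_of_binSys (H := fun w => (H w).map ι) hm ⟨?_, ?_, ?_⟩ ?_ ?_)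
  · exact fun w b => Subgroup.map_mono (hH.le w b)
  · rintro w _ ⟨x, hx, rfl⟩ _ ⟨y, hy, rfl⟩
    exact (hH.comm w x hx y hy).map ι
  · rintro w _ ⟨x, hx, rfl⟩ ⟨y, hy, h⟩
    have h1 : y = x := hι h
    subst h1
    rw [hH.disj w y hx hy, map_one]
  · intro w
    obtain ⟨S, hS⟩ := hfg w
    refine ⟨S.image ι, ?_⟩
    rw [Finset.coe_image, ← MonoidHom.map_closure, hS]
  · intro w
    have h1 : ((H w).map ι : Set Γ) = ι '' (H w : Set Δ) := rfl
    rw [h1]
    exact (hinf w).image hι.injOn

/-- **Theorem.**  The following groups do not embed in any group which has FDC or weak FDC for some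
proper left-invariant metric; in particular they have neither FDC nor weak FDC themselves.
(1) Groups with a binary system of commuting, infinite, finitely generated subgroups.
(2) Finitely generated branch groups.
(3) Thompson's group `F`.
(4) Grigorchuk's group.
(5) In particular Grigorchuk's group, with the word metric of any finite generating set, has neither
FDC nor weak FDC. -/
theorem result :
    (∀ (Δ : Type) [Group Δ] (H : List Bool → Subgroup Δ), BinSys H → (∀ w, (H w).FG) →
      (∀ w, (H w : Set Δ).Infinite) → Obstructs Δ) ∧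
    (∀ (k : ℕ → ℕ) (G : Subgroup (Equiv.Perm (Bd k))), IsBranch G → Group.FG G → Obstructs G) ∧
    Obstructs thF ∧
    (∀ a b c d : Equiv.Perm Seq, IsGrig a b c d →
      Obstructs (Subgroup.closure ({a, b, c, d} : Set (Equiv.Perm Seq)))) ∧
    (∃ a b c d : Equiv.Perm Seq, IsGrig a b c d) ∧
    ∀ a b c d : Equiv.Perm Seq, IsGrig a b c d →
      ∀ (S : Set (Subgroup.closure ({a, b, c, d} : Set (Equiv.Perm Seq)))), S.Finite →
        ∀ hS : Subgroup.closure S = ⊤, NoFDC _ (wordMetric S hS) := by
  refine ⟨fun Δ _ H hH hfg hinf => obstructs_binSys hH hfg hinf, ?_, ?_, ?_,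
    GrigorchukNoWeakFDC.result⟩
  · intro k G hG hfg Γ _ m hm ι hι
    exact noFDC (branch_not_weakFDC hG hfg hm ι hι)
  · intro Γ _ m hm ι hι
    exact noFDC (not_weakFDC_of_square hm sqF sqF_inj ι hι)
  · intro a b c d hG Γ _ m hm ι hι
    have := KG_infinite hG
    exact noFDC (not_weakFDC_of_square hm (sqK hG) (sqK_inj hG)
      (ι.comp (Subgroup.inclusion H812R5.G.closure_sub))
      (hι.comp (Subgroup.inclusion_injective _)))

end Pool.Agent.Results.MP_bba340_al.BranchAndThompson
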